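import Pool.Agent.V7Lead.GH.Defs
import Pool.Agent.Q257.UM.DSC
import Pool.Agent.Q210.UM8.BlsInt

set_option autoImplicit false

/-!
Project GH (MP_69b2e4_nt), job D1: Dirichlet polynomials at the zeros themselves.
-/

namespace Pool.Agent.V7H67.GH.D1

open Filter Topology MeasureTheory Complex
open Pool.Agent.Q97.UM Pool.Agent.V7Lead.GH
open Pool.Agent.Q210.UM8 (C4 int_C4 C4_nonneg)
open Pool.Agent.Q257.UM (mem_ZD SS_nonneg SS_cont)

noncomputable section

theorem ker_cont (L t : ℝ) (p : ℕ) : Continuous fun v : ℝ => L * (1 / (1 + |L * (t - v)|) ^ p) := by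
  refine continuous_const.mul (continuous_const.div (by fun_prop) fun v => ?_)
  positivity

theorem ker_le {p : ℕ} {L : ℝ} (hL : 1 ≤ L) (t v : ℝ) :
    1 / (1 + |L * (t - v)|) ^ p ≤ 1 / (1 + |t - v|) ^ p := by
  have h1 : |t - v| ≤ |L * (t - v)| := by
    rw [abs_mul, abs_of_pos (by linarith : 0 < L)]
    nlinarith [abs_nonneg (t - v)]
  have h2 := abs_nonneg (t - v)
  exact one_div_le_one_div_of_le (by positivity) (pow_le_pow_left₀ (by positivity) (by linarith) p)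

theorem ker_int {p : ℕ} (hp : 2 ≤ p) {L : ℝ} (hL : 1 ≤ L) (t : ℝ) {f : ℝ → ℝ} (hf : Continuous f) {G : ℝ}
    (h0 : ∀ v, 0 ≤ f v) (hG : ∀ v, f v ≤ G) :
    Integrable (fun v : ℝ => L * (1 / (1 + |L * (t - v)|) ^ p) * f v) := by
  have h1 : Integrable (fun v : ℝ => (L * G) * (1 / (1 + |t - v|) ^ 2)) := (int_C4.comp_sub_left t).const_mul _
  refine h1.mono' ((ker_cont L t p).mul hf).aestronglyMeasurable (Eventually.of_forall fun v => ?_)
  have hL0 : 0 ≤ L := by linarith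
  rw [Real.norm_of_nonneg (mul_nonneg (by positivity) (h0 v))]
  have h2 : 1 / (1 + |L * (t - v)|) ^ p ≤ 1 / (1 + |t - v|) ^ 2 := by
    refine (ker_le hL t v).trans ?_
    have h3 := abs_nonneg (t - v)
    exact one_div_le_one_div_of_le (by positivity) (pow_le_pow_right₀ (by linarith) hp)
  calc L * (1 / (1 + |L * (t - v)|) ^ p) * f v ≤ L * (1 / (1 + |t - v|) ^ 2) * G :=
        mul_le_mul (mul_le_mul_of_nonneg_left h2 hL0) (hG v) (h0 v) (by positivity)
    _ = _ := by ring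

/-- the far part of one integral -/
theorem far_part {q : ℕ} {L T : ℝ} (hL : 1 ≤ L) (hT : 2 ≤ T) {t : ℝ} (ht1 : T ≤ t) (ht2 : t ≤ 2 * T)
    {f : ℝ → ℝ} (hf : Continuous f) {G : ℝ} (h0 : ∀ v, 0 ≤ f v) (hG : ∀ v, f v ≤ G) :
    ∫ v in (Set.Ioc (T / 4) (8 * T))ᶜ, L * (1 / (1 + |L * (t - v)|) ^ (q + 2)) * f v ≤ L * ((T / 2) ^ q)⁻¹ * G * C4 := by
  have hL0 : 0 ≤ L := by linarith
  have hG0 : 0 ≤ G := (h0 0).trans (hG 0)
  have h2 : Integrable (fun v : ℝ => (L * ((T / 2) ^ q)⁻¹ * G) * (1 / (1 + |t - v|) ^ 2)) :=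
    (int_C4.comp_sub_left t).const_mul _
  have h1 : ∀ v ∈ (Set.Ioc (T / 4) (8 * T))ᶜ, L * (1 / (1 + |L * (t - v)|) ^ (q + 2)) * f v ≤
      (L * ((T / 2) ^ q)⁻¹ * G) * (1 / (1 + |t - v|) ^ 2) := by
    intro v hv
    have h3 : T / 2 ≤ |t - v| := by
      rw [Set.mem_compl_iff, Set.mem_Ioc, not_and_or, not_lt, not_le] at hv
      rcases hv with hv | hv
      · rw [abs_of_nonneg (by linarith)]
        linarith
      · rw [abs_of_nonpos (by linarith)]
        linarith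
    have h4 : 1 / (1 + |L * (t - v)|) ^ (q + 2) ≤ ((T / 2) ^ q)⁻¹ * (1 / (1 + |t - v|) ^ 2) := by
      refine (ker_le hL t v).trans ?_
      rw [one_div, one_div, ← mul_inv]
      apply inv_anti₀ (by positivity)
      rw [pow_add]
      apply mul_le_mul_of_nonneg_right _ (by positivity)
      exact pow_le_pow_left₀ (by positivity) (by linarith) q
    calc L * (1 / (1 + |L * (t - v)|) ^ (q + 2)) * f v ≤ L * (((T / 2) ^ q)⁻¹ * (1 / (1 + |t - v|) ^ 2)) * G :=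
          mul_le_mul (mul_le_mul_of_nonneg_left h4 hL0) (hG v) (h0 v) (by positivity)
      _ = _ := by ring
  calc ∫ v in (Set.Ioc (T / 4) (8 * T))ᶜ, L * (1 / (1 + |L * (t - v)|) ^ (q + 2)) * f v ≤
        ∫ v in (Set.Ioc (T / 4) (8 * T))ᶜ, (L * ((T / 2) ^ q)⁻¹ * G) * (1 / (1 + |t - v|) ^ 2) :=
        setIntegral_mono_on (ker_int (by omega) hL t hf h0 hG).integrableOn h2.integrableOn measurableSet_Ioc.compl h1
    _ ≤ ∫ v : ℝ, (L * ((T / 2) ^ q)⁻¹ * G) * (1 / (1 + |t - v|) ^ 2) := by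
        apply setIntegral_le_integral h2
        exact Eventually.of_forall fun v => by
          simp only [Pi.zero_apply]
          positivity
    _ = _ := by
        rw [integral_const_mul, integral_sub_left_eq_self (fun y : ℝ => 1 / (1 + |y|) ^ 2) volume t]
        rfl

/-- sum and integral -/
theorem sum_part {ι : Type} (Z : Finset ι) (x w : ι → ℝ) {q : ℕ} {L T : ℝ} (hL : 1 ≤ L) (hT : 2 ≤ T)
    (hw : ∀ i ∈ Z, 0 ≤ w i) (hx : ∀ i ∈ Z, T ≤ x i ∧ x i ≤ 2 * T)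
    {f F : ℝ → ℝ} (hf : Continuous f) (hF : Continuous F) {G : ℝ} (h0 : ∀ v, 0 ≤ f v) (hG : ∀ v, f v ≤ G)
    (hs : ∀ v, ∑ i ∈ Z, w i * (1 / (1 + |L * (x i - v)|) ^ (q + 2)) ≤ F v) :
    ∑ i ∈ Z, w i * ∫ v : ℝ, L * (1 / (1 + |L * (x i - v)|) ^ (q + 2)) * f v ≤
      L * (∫ v in (T / 4)..(8 * T), F v * f v) + (∑ i ∈ Z, w i) * (L * ((T / 2) ^ q)⁻¹ * G * C4) := by
  have hL0 : 0 ≤ L := by linarith
  have hAm : MeasurableSet (Set.Ioc (T / 4) (8 * T)) := measurableSet_Ioc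
  have hsplit : ∀ i ∈ Z, w i * ∫ v : ℝ, L * (1 / (1 + |L * (x i - v)|) ^ (q + 2)) * f v ≤
      (∫ v in Set.Ioc (T / 4) (8 * T), w i * (L * (1 / (1 + |L * (x i - v)|) ^ (q + 2)) * f v)) +
        w i * (L * ((T / 2) ^ q)⁻¹ * G * C4) := by
    intro i hi
    rw [← integral_add_compl hAm (ker_int (by omega) hL (x i) hf h0 hG), mul_add, integral_const_mul]
    exact add_le_add le_rfl (mul_le_mul_of_nonneg_left
      (far_part hL hT (hx i hi).1 (hx i hi).2 hf h0 hG) (hw i hi))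
  refine (Finset.sum_le_sum hsplit).trans ?_
  rw [Finset.sum_add_distrib, ← Finset.sum_mul]
  refine add_le_add ?_ le_rfl
  have hii : ∀ i, Integrable (fun v : ℝ => w i * (L * (1 / (1 + |L * (x i - v)|) ^ (q + 2)) * f v)) := fun i =>
    (ker_int (by omega) hL (x i) hf h0 hG).const_mul _
  rw [← integral_finsetSum _ (fun i _ => (hii i).integrableOn), intervalIntegral.integral_of_le (by linarith),
    ← integral_const_mul]
  have hi2 : IntegrableOn (fun v => L * (F v * f v)) (Set.Ioc (T / 4) (8 * T)) :=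
    (continuous_const.mul (hF.mul hf)).integrableOn_Icc.mono_set Set.Ioc_subset_Icc_self
  refine setIntegral_mono_on (integrable_finsetSum _ fun i _ => (hii i).integrableOn) hi2 hAm fun v _ => ?_
  have h1 : ∑ i ∈ Z, w i * (L * (1 / (1 + |L * (x i - v)|) ^ (q + 2)) * f v) =
      L * ((∑ i ∈ Z, w i * (1 / (1 + |L * (x i - v)|) ^ (q + 2))) * f v) := by
    rw [Finset.sum_mul, Finset.mul_sum]
    exact Finset.sum_congr rfl fun i _ => by ring
  rw [h1]
  exact mul_le_mul_of_nonneg_left (mul_le_mul_of_nonneg_right (hs v) (h0 v)) hL0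

/-- `SS` grows slowly -/
theorem SS_le {δ T : ℝ} (hL : 0 ≤ Real.log T) (t v : ℝ) :
    SS δ T t ≤ (1 + |Real.log T * (t - v)|) ^ 2 * SS δ T v := by
  unfold SS
  rw [Finset.mul_sum]
  refine Finset.sum_le_sum fun s _ => ?_
  have hE := Real.exp_pos (2 * δ * (Real.log T * |s.re - 1 / 2|))
  have h1 : 0 < 1 + Real.log T * |s.im - t| := by positivity
  have h2 : 0 < 1 + Real.log T * |s.im - v| := by positivity
  have h3 : 1 + Real.log T * |s.im - v| ≤ (1 + |Real.log T * (t - v)|) * (1 + Real.log T * |s.im - t|) := by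
    have h4 : |s.im - v| ≤ |s.im - t| + |t - v| := by
      have : s.im - v = (s.im - t) + (t - v) := by ring
      rw [this]; exact abs_add_le _ _
    rw [abs_mul, abs_of_nonneg hL]
    have h5 : Real.log T * |s.im - v| ≤ Real.log T * |s.im - t| + Real.log T * |t - v| := by
      rw [← mul_add]; gcongr
    have h6 : 0 ≤ (Real.log T * |t - v|) * (Real.log T * |s.im - t|) := by positivity
    nlinarith
  have e : (1 + |Real.log T * (t - v)|) ^ 2 * ((mz s : ℝ) * (Real.exp (2 * δ * (Real.log T * |s.re - 1 / 2|)) /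
      (1 + Real.log T * |s.im - v|) ^ 2)) = (mz s : ℝ) * ((1 + |Real.log T * (t - v)|) ^ 2 *
        (Real.exp (2 * δ * (Real.log T * |s.re - 1 / 2|)) / (1 + Real.log T * |s.im - v|) ^ 2)) := by ring
  rw [e]
  refine mul_le_mul_of_nonneg_left ?_ (Nat.cast_nonneg _)
  rw [div_le_iff₀ (by positivity)]
  calc Real.exp (2 * δ * (Real.log T * |s.re - 1 / 2|)) =
        Real.exp (2 * δ * (Real.log T * |s.re - 1 / 2|)) / (1 + Real.log T * |s.im - v|) ^ 2 *
          (1 + Real.log T * |s.im - v|) ^ 2 := by field_simp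
    _ ≤ Real.exp (2 * δ * (Real.log T * |s.re - 1 / 2|)) / (1 + Real.log T * |s.im - v|) ^ 2 *
          ((1 + |Real.log T * (t - v)|) * (1 + Real.log T * |s.im - t|)) ^ 2 := by gcongr
    _ = _ := by ring

/-- the weights -/
def wt (δ T : ℝ) (m : ℕ) (s : ℂ) : ℝ := (mz s : ℝ) * (SS δ T s.im ^ m * Real.exp (2 * δ * (Real.log T * |s.re - 1 / 2|)))

theorem wt_nonneg (δ T : ℝ) (m : ℕ) (s : ℂ) : 0 ≤ wt δ T m s :=
  mul_nonneg (Nat.cast_nonneg _) (mul_nonneg (pow_nonneg (SS_nonneg _ _ _) _) (Real.exp_pos _).le)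

theorem wt_sum {δ T : ℝ} (hL : 0 ≤ Real.log T) {m q : ℕ} (hq : 2 * m ≤ q) {Z : Finset ℂ} (hZ : Z ⊆ ZD T) (v : ℝ) :
    ∑ s ∈ Z, wt δ T m s * (1 / (1 + |Real.log T * (s.im - v)|) ^ (q + 2)) ≤ SS δ T v ^ (m + 1) := by
  rw [pow_succ]
  have h1 : ∑ s ∈ Z, wt δ T m s * (1 / (1 + |Real.log T * (s.im - v)|) ^ (q + 2)) ≤
      ∑ s ∈ Z, SS δ T v ^ m * ((mz s : ℝ) * (Real.exp (2 * δ * (Real.log T * |s.re - 1 / 2|)) /
        (1 + Real.log T * |s.im - v|) ^ 2)) := by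
    refine Finset.sum_le_sum fun s _ => ?_
    have h2 : SS δ T s.im ^ m ≤ (1 + |Real.log T * (s.im - v)|) ^ (2 * m) * SS δ T v ^ m := by
      rw [pow_mul, ← mul_pow]
      exact pow_le_pow_left₀ (SS_nonneg _ _ _) (SS_le hL _ _) m
    have hx : Real.log T * |s.im - v| = |Real.log T * (s.im - v)| := by rw [abs_mul, abs_of_nonneg hL]
    rw [hx]
    set X := 1 + |Real.log T * (s.im - v)| with hX
    have hX1 : 1 ≤ X := by rw [hX]; linarith [abs_nonneg (Real.log T * (s.im - v))]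
    have hX0 : 0 < X := by linarith
    have hE := Real.exp_pos (2 * δ * (Real.log T * |s.re - 1 / 2|))
    set E := Real.exp (2 * δ * (Real.log T * |s.re - 1 / 2|)) with hEd
    have hm : (0 : ℝ) ≤ mz s := Nat.cast_nonneg _
    have hSv : 0 ≤ SS δ T v ^ m := pow_nonneg (SS_nonneg _ _ _) _
    have h3 : 1 / X ^ (q + 2) ≤ 1 / (X ^ (2 * m) * X ^ 2) := by
      rw [← pow_add]
      exact one_div_le_one_div_of_le (by positivity) (pow_le_pow_right₀ hX1 (by omega))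
    calc wt δ T m s * (1 / X ^ (q + 2)) = (mz s : ℝ) * E * (SS δ T s.im ^ m * (1 / X ^ (q + 2))) := by
          unfold wt; rw [← hEd]; ring
      _ ≤ (mz s : ℝ) * E * ((X ^ (2 * m) * SS δ T v ^ m) * (1 / (X ^ (2 * m) * X ^ 2))) := by
          refine mul_le_mul_of_nonneg_left ?_ (by positivity)
          exact mul_le_mul h2 h3 (by positivity) (by positivity)
      _ = _ := by field_simp
  refine h1.trans ?_
  rw [← Finset.mul_sum]
  refine mul_le_mul_of_nonneg_left ?_ (pow_nonneg (SS_nonneg _ _ _) _)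
  unfold SS
  refine Finset.sum_le_sum_of_subset_of_nonneg hZ fun s _ _ => ?_
  positivity

/-- the exponential sum -/
theorem dq_eq (M : ℕ) (c : ℕ → ℂ) (s : ℂ) :
    dq M c s = ex (Finset.Icc 1 M) (fun n => c n * (n : ℂ) ^ (-(1 / 2) : ℂ)) (fun n => Real.log n)
      ((s.im : ℝ) + ((-(s.re - 1 / 2) : ℝ) : ℂ) * I) := by
  unfold dq ex
  refine Finset.sum_congr rfl fun n hn => ?_
  have hn1 : 1 ≤ n := (Finset.mem_Icc.1 hn).1
  have hn0 : (n : ℂ) ≠ 0 := by exact_mod_cast (by omega : n ≠ 0)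
  rw [mul_assoc]
  congr 1
  rw [Complex.cpow_def_of_ne_zero hn0, Complex.cpow_def_of_ne_zero hn0, ← Complex.exp_add]
  congr 1
  rw [← Complex.natCast_log]
  have hs : s = (s.re : ℂ) + (s.im : ℂ) * I := (re_add_im s).symm
  have : -s = -(1 / 2) - I * ((s.im : ℂ) + ((-(s.re - 1 / 2) : ℝ) : ℂ) * I) := by
    push_cast
    have hI : I * I = -1 := I_mul_I
    linear_combination (-1 : ℂ) * hs - ((s.re : ℂ) - 1 / 2) * hI
  rw [this]
  ring

theorem dp_eq (M : ℕ) (c : ℕ → ℂ) (v : ℝ) :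
    dp M c v = ex (Finset.Icc 1 M) (fun n => c n * (n : ℂ) ^ (-(1 / 2) : ℂ)) (fun n => Real.log n) v := by
  have h := dq_eq M c (1 / 2 + v * I)
  have h1 : (1 / 2 + (v : ℂ) * I).re = 1 / 2 := by simp
  have h2 : (1 / 2 + (v : ℂ) * I).im = v := by simp
  rw [h1, h2, sub_self, neg_zero, ofReal_zero, zero_mul, add_zero] at h
  exact h

/-- change of the scale -/
theorem scale {p : ℕ} {θ L x : ℝ} (h0 : 0 < θ) (h1 : θ ≤ 1) (hL : 0 < L) :
    θ * L * (1 / (1 + |θ * L * x|) ^ p) ≤ (θ ^ p)⁻¹ * (L * (1 / (1 + |L * x|) ^ p)) := by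
  have h2 : θ ^ p * (1 + |L * x|) ^ p ≤ (1 + |θ * L * x|) ^ p := by
    rw [← mul_pow]
    apply pow_le_pow_left₀ (by positivity)
    rw [mul_assoc θ L x, abs_mul θ, abs_of_pos h0]
    nlinarith [abs_nonneg (L * x)]
  have h3 : 1 / (1 + |θ * L * x|) ^ p ≤ 1 / (θ ^ p * (1 + |L * x|) ^ p) :=
    one_div_le_one_div_of_le (by positivity) h2
  have h4 : θ * L ≤ L := by nlinarith
  calc θ * L * (1 / (1 + |θ * L * x|) ^ p) ≤ L * (1 / (θ ^ p * (1 + |L * x|) ^ p)) :=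
        mul_le_mul h4 h3 (by positivity) hL.le
    _ = _ := by
      rw [one_div, one_div, mul_inv]
      ring

theorem t_D1 : S_D1 := by
  intro hCB hDPM hMVL θ δ m C hθ hθ1 hδ hδ1 hC hSSB
  obtain ⟨B, hB1, hB⟩ := hCB (2 * m + 4 + 2) (by omega)
  obtain ⟨C₁, hC₁, hDSC⟩ := Pool.Agent.Q257.UM.t_DSC hDPM hMVL θ δ m C hθ hθ1 hδ hC hSSB
  have hB0 : 0 < B := by linarith
  obtain ⟨θ', hθ'⟩ : ∃ θ' : ℝ, θ' = min θ (δ / B) := ⟨_, rfl⟩
  have hθ'0 : 0 < θ' := by rw [hθ']; exact lt_min hθ (by positivity)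
  have hθ'1 : θ' ≤ θ := by rw [hθ']; exact min_le_left _ _
  have hθ'2 : B * θ' ≤ δ := by
    have : θ' ≤ δ / B := by rw [hθ']; exact min_le_right _ _
    rw [le_div_iff₀ hB0] at this
    linarith
  refine ⟨θ', B * (θ' ^ (2 * m + 4 + 2))⁻¹ * (C + 16 * C₁ * C4), hθ'0, hθ'1, ?_, ?_⟩
  · have := C4_nonneg
    positivity
  have hlT : ∀ᶠ T : ℝ in atTop, Real.log T ≤ T := by
    filter_upwards [eventually_gt_atTop (0 : ℝ)] with T hT
    linarith [Real.log_le_sub_one_of_pos hT]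
  filter_upwards [hSSB, hDSC, eventually_ge_atTop (Real.exp 1), eventually_ge_atTop 16, hlT] with T hSS hD hTe hT16 hlT
  intro M c hM
  have hT0 : 0 < T := by linarith
  have hT1 : 1 ≤ T := by linarith
  obtain ⟨L, hLd⟩ : ∃ L : ℝ, L = Real.log T := ⟨_, rfl⟩
  have hL1 : 1 ≤ L := by rw [hLd, Real.le_log_iff_exp_le hT0]; exact hTe
  have hL0 : 0 < L := by linarith
  have hMθ : (M : ℝ) ≤ T ^ θ := hM.trans (Real.rpow_le_rpow_of_exponent_le hT1 hθ'1)
  have hMT : (M : ℝ) ≤ T := hMθ.trans (by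
    calc T ^ θ ≤ T ^ (1 : ℝ) := Real.rpow_le_rpow_of_exponent_le hT1 (by linarith)
      _ = T := Real.rpow_one T)
  have hN0 : 0 ≤ N2 M c := by
    unfold N2
    positivity
  have hfc : Continuous fun v : ℝ => ‖dp M c v‖ ^ 2 := ((hDPM.2.2 M c 0).2).norm.pow 2
  have hf0 : ∀ v : ℝ, 0 ≤ ‖dp M c v‖ ^ 2 := fun v => by positivity
  have hfG : ∀ v : ℝ, ‖dp M c v‖ ^ 2 ≤ M * N2 M c := fun v => (hDPM.2.2 M c v).1
  obtain ⟨Z, hZ⟩ : ∃ Z : Finset ℂ, Z = H370.Zf riemannZeta T (2 * T) := ⟨_, rfl⟩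
  have hZm : ∀ s ∈ Z, 0 < s.re ∧ s.re < 1 ∧ T < s.im ∧ s.im ≤ 2 * T ∧ riemannZeta s = 0 := by
    intro s hs
    rw [hZ, H370.mem_Zf H370.good_zeta (by linarith)] at hs
    exact hs
  have hZD : Z ⊆ ZD T := by
    intro s hs
    obtain ⟨a1, a2, a3, a4, a5⟩ := hZm s hs
    exact (mem_ZD hT16 s).2 ⟨a1, a2, by linarith, by linarith, a5⟩
  -- one zero
  have hone : ∀ s ∈ Z, (mz s : ℝ) * (SS δ T s.im ^ m * Real.exp (δ * (L * |s.re - 1 / 2|)) * ‖dq M c s‖ ^ 2) ≤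
      B * (θ' ^ (2 * m + 4 + 2))⁻¹ * (wt δ T m s * ∫ v : ℝ, L * (1 / (1 + |L * (s.im - v)|) ^ (2 * m + 4 + 2)) * ‖dp M c v‖ ^ 2) := by
    intro s _
    have h1 := (hB ℕ (Finset.Icc 1 M) (fun n => c n * (n : ℂ) ^ (-(1 / 2) : ℂ)) (fun n => Real.log n) (θ' * L) (by positivity)
      (fun n hn => by
        rw [Finset.mem_Icc] at hn
        have h1 : (1 : ℝ) ≤ n := by exact_mod_cast hn.1
        rw [abs_of_nonneg (Real.log_nonneg h1)]
        have h2 : (n : ℝ) ≤ T ^ θ' := le_trans (by exact_mod_cast hn.2) hM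
        have h3 := Real.log_le_log (by linarith) h2
        rw [Real.log_rpow hT0, ← hLd] at h3
        have : 0 ≤ θ' * L := by positivity
        linarith) s.im (-(s.re - 1 / 2))).1
    rw [← dq_eq, abs_neg] at h1
    simp only [← dp_eq] at h1
    have h2 : ∫ v : ℝ, θ' * L * (1 / (1 + |θ' * L * (s.im - v)|) ^ (2 * m + 4 + 2)) * ‖dp M c v‖ ^ 2 ≤
        (θ' ^ (2 * m + 4 + 2))⁻¹ * ∫ v : ℝ, L * (1 / (1 + |L * (s.im - v)|) ^ (2 * m + 4 + 2)) * ‖dp M c v‖ ^ 2 := by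
      rw [← integral_const_mul]
      refine integral_mono_of_nonneg (Eventually.of_forall fun v => by
        simp only [Pi.zero_apply]
        positivity) ((ker_int (by omega) hL1 _ hfc hf0 hfG).const_mul _) (Eventually.of_forall fun v => ?_)
      have := scale (p := 2 * m + 4 + 2) (x := s.im - v) hθ'0 (by linarith) hL0
      calc θ' * L * (1 / (1 + |θ' * L * (s.im - v)|) ^ (2 * m + 4 + 2)) * ‖dp M c v‖ ^ 2 ≤
            (θ' ^ (2 * m + 4 + 2))⁻¹ * (L * (1 / (1 + |L * (s.im - v)|) ^ (2 * m + 4 + 2))) * ‖dp M c v‖ ^ 2 :=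
            mul_le_mul_of_nonneg_right this (hf0 v)
        _ = _ := by ring
    set J := ∫ v : ℝ, L * (1 / (1 + |L * (s.im - v)|) ^ (2 * m + 4 + 2)) * ‖dp M c v‖ ^ 2 with hJ
    have hJ0 : 0 ≤ J := integral_nonneg fun v => by positivity
    have h3 : Real.exp (B * (θ' * L * |s.re - 1 / 2|)) ≤ Real.exp (δ * (L * |s.re - 1 / 2|)) := by
      apply Real.exp_le_exp.2
      have : 0 ≤ L * |s.re - 1 / 2| := by positivity
      calc B * (θ' * L * |s.re - 1 / 2|) = B * θ' * (L * |s.re - 1 / 2|) := by ring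
        _ ≤ δ * (L * |s.re - 1 / 2|) := mul_le_mul_of_nonneg_right hθ'2 this
    have h4 : ‖dq M c s‖ ^ 2 ≤ B * Real.exp (δ * (L * |s.re - 1 / 2|)) * ((θ' ^ (2 * m + 4 + 2))⁻¹ * J) := by
      refine h1.trans ?_
      refine mul_le_mul (mul_le_mul_of_nonneg_left h3 hB0.le) h2 (integral_nonneg fun v => ?_) (by positivity)
      simp only [Pi.zero_apply]
      positivity
    have h5 : 0 ≤ SS δ T s.im ^ m := pow_nonneg (SS_nonneg _ _ _) _
    have h6 : Real.exp (2 * δ * (Real.log T * |s.re - 1 / 2|)) =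
        Real.exp (δ * (L * |s.re - 1 / 2|)) * Real.exp (δ * (L * |s.re - 1 / 2|)) := by
      rw [← Real.exp_add, hLd]
      congr 1
      ring
    calc (mz s : ℝ) * (SS δ T s.im ^ m * Real.exp (δ * (L * |s.re - 1 / 2|)) * ‖dq M c s‖ ^ 2) ≤
          (mz s : ℝ) * (SS δ T s.im ^ m * Real.exp (δ * (L * |s.re - 1 / 2|)) *
            (B * Real.exp (δ * (L * |s.re - 1 / 2|)) * ((θ' ^ (2 * m + 4 + 2))⁻¹ * J))) := by
          refine mul_le_mul_of_nonneg_left ?_ (Nat.cast_nonneg _)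
          exact mul_le_mul_of_nonneg_left h4 (by positivity)
      _ = _ := by
          unfold wt
          rw [h6]
          ring
  rw [← hZ, ← hLd]
  refine (Finset.sum_le_sum hone).trans ?_
  rw [← Finset.mul_sum]
  have hS := sum_part Z (fun s => s.im) (wt δ T m) (q := 2 * m + 4) (L := L) (T := T) hL1 (by linarith)
    (fun s _ => wt_nonneg _ _ _ _) (fun s hs => ⟨(hZm s hs).2.2.1.le, (hZm s hs).2.2.2.1⟩) hfc
    ((SS_cont (δ := δ) (by rw [← hLd]; exact hL0.le)).pow (m + 1)) hf0 hfG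
    (fun v => by
      rw [hLd]
      exact wt_sum (by rw [← hLd]; exact hL0.le) (by omega) hZD v)
  have hmain := hSS M hMθ c
  -- total weight
  have hW : ∑ s ∈ Z, wt δ T m s ≤ T * (C₁ * L * T) := by
    have h1 := hD 1 (by
      rw [Nat.cast_one]
      exact Real.one_le_rpow hT1 hθ.le) (fun _ => 1)
    have e1 : ∀ t : ℝ, dp 1 (fun _ => 1) t = 1 := fun t => by simp [dp]
    have e2 : N2 1 (fun _ => 1) = 1 := by simp [N2]
    simp only [e1, e2, norm_one, one_pow, mul_one] at h1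
    rw [← hZ, ← hLd] at h1
    refine le_trans ?_ (mul_le_mul_of_nonneg_left h1 hT0.le)
    rw [Finset.mul_sum]
    refine Finset.sum_le_sum fun s hs => ?_
    obtain ⟨a1, a2, a3, a4, a5⟩ := hZm s hs
    have h2 : Real.exp (2 * δ * (Real.log T * |s.re - 1 / 2|)) ≤ T := by
      calc Real.exp (2 * δ * (Real.log T * |s.re - 1 / 2|)) ≤ Real.exp (Real.log T) := by
            apply Real.exp_le_exp.2
            rw [← hLd]
            have h3 : |s.re - 1 / 2| ≤ 1 / 2 := by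
              rw [abs_le]
              constructor <;> linarith
            have h4 : L * |s.re - 1 / 2| ≤ L * (1 / 2) := mul_le_mul_of_nonneg_left h3 hL0.le
            have h5 : 0 ≤ L * |s.re - 1 / 2| := by positivity
            nlinarith
        _ = T := Real.exp_log hT0
    have h5 : 0 ≤ SS δ T s.im ^ m := pow_nonneg (SS_nonneg _ _ _) _
    have hm0 : (0 : ℝ) ≤ mz s := Nat.cast_nonneg _
    calc wt δ T m s = (mz s : ℝ) * SS δ T s.im ^ m * Real.exp (2 * δ * (Real.log T * |s.re - 1 / 2|)) := by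
          unfold wt; ring
      _ ≤ (mz s : ℝ) * SS δ T s.im ^ m * T := mul_le_mul_of_nonneg_left h2 (by positivity)
      _ = _ := by ring
  have hC4 := C4_nonneg
  have hfar : (∑ s ∈ Z, wt δ T m s) * (L * ((T / 2) ^ (2 * m + 4))⁻¹ * (M * N2 M c) * C4) ≤
      16 * C₁ * C4 * (L * (T * N2 M c)) := by
    have h1 : ((T / 2) ^ (2 * m + 4))⁻¹ ≤ ((T / 2) ^ 4)⁻¹ := by
      apply inv_anti₀ (by positivity)
      exact pow_le_pow_right₀ (by linarith) (by omega)
    have h2 : L * ((T / 2) ^ (2 * m + 4))⁻¹ * (M * N2 M c) * C4 ≤ T * ((T / 2) ^ 4)⁻¹ * (T * N2 M c) * C4 := by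
      have h3 : L ≤ T := by rw [hLd]; exact hlT
      gcongr
    have h4 : 0 ≤ L * ((T / 2) ^ (2 * m + 4))⁻¹ * (M * N2 M c) * C4 := by positivity
    calc _ ≤ (T * (C₁ * L * T)) * (T * ((T / 2) ^ 4)⁻¹ * (T * N2 M c) * C4) :=
          mul_le_mul hW h2 h4 (by positivity)
      _ = 16 * C₁ * C4 * (L * N2 M c) := by
          field_simp
          ring
      _ ≤ 16 * C₁ * C4 * (L * (T * N2 M c)) := by
          refine mul_le_mul_of_nonneg_left ?_ (by positivity)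
          refine mul_le_mul_of_nonneg_left ?_ hL0.le
          nlinarith
  have hpos : 0 ≤ B * (θ' ^ (2 * m + 4 + 2))⁻¹ := by positivity
  calc B * (θ' ^ (2 * m + 4 + 2))⁻¹ * ∑ s ∈ Z, wt δ T m s * ∫ v : ℝ, L * (1 / (1 + |L * (s.im - v)|) ^ (2 * m + 4 + 2)) * ‖dp M c v‖ ^ 2 ≤
        B * (θ' ^ (2 * m + 4 + 2))⁻¹ * (L * (C * T * N2 M c) + 16 * C₁ * C4 * (L * (T * N2 M c))) := by
        refine mul_le_mul_of_nonneg_left (hS.trans ?_) hpos
        exact add_le_add (mul_le_mul_of_nonneg_left hmain hL0.le) hfar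
    _ = _ := by ring

end

end Pool.Agent.V7H67.GH.D1
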