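import Pool.Agent.V7Lead.GH.Defs
import Pool.Agent.H448R2.GC.X2

set_option autoImplicit false

/-!
Project GH (MP_69b2e4_nt), job FAR: the zeros far from the critical line.
-/

namespace Pool.Agent.V7H67.GH

open Filter Topology MeasureTheory Complex
open Pool.Agent.Q97.UM Pool.Agent.V7Lead.GH

noncomputable section

/-- `ζ'` grows at most polynomially at the nontrivial zeros. -/
theorem deriv_growth : ∃ K : ℝ, 0 < K ∧ ∀ᶠ T : ℝ in atTop, ∀ s : ℂ, 0 < s.re → s.re < 1 → T < s.im → s.im ≤ 2 * T →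
    ‖deriv riemannZeta s‖ ≤ T ^ K := by
  obtain ⟨C, B, hC, hB, hg⟩ := H448R2.GC.zeta_growth (1 / 4)
  refine ⟨B + 1, by linarith, ?_⟩
  filter_upwards [eventually_ge_atTop (2 : ℝ), eventually_ge_atTop (C * 4 ^ B / (1 / 4))] with T hT2 hTC
  intro s h0 h1 hs1 hs2
  have hpos : 0 < s.im := by linarith
  have hsph : ∀ z ∈ Metric.sphere s (1 / 4 : ℝ), ‖riemannZeta z‖ ≤ C * (4 * T) ^ B := by
    intro z hz
    rw [mem_sphere_iff_norm] at hz
    have hre := (abs_re_le_norm (z - s)).trans_eq hz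
    have him := (abs_im_le_norm (z - s)).trans_eq hz
    rw [sub_re, abs_le] at hre
    rw [sub_im, abs_le] at him
    have hzim : 1 ≤ z.im := by linarith [him.1]
    have h5 : 1 / 16 ≤ ‖z - 1‖ := by
      have := abs_im_le_norm (z - 1)
      rw [sub_im, one_im, sub_zero] at this
      have h6 := le_abs_self z.im
      linarith
    have h7 := hg z (by linarith [hre.1]) (by linarith [hre.2]) h5
    refine h7.trans ?_
    have h8 : |z.im| ≤ 2 * T + 1 / 4 := by
      rw [abs_of_nonneg (by linarith)]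
      linarith [him.2]
    have h9 : 1 + |z.im| ≤ 4 * T := by linarith
    have h10 : (1 + |z.im|) ^ B ≤ (4 * T) ^ B := Real.rpow_le_rpow (by positivity) h9 hB.le
    exact mul_le_mul_of_nonneg_left h10 hC.le
  have hd : DiffContOnCl ℂ riemannZeta (Metric.ball s (1 / 4 : ℝ)) := by
    apply DifferentiableOn.diffContOnCl
    rw [closure_ball s (by norm_num)]
    intro z hz
    rw [mem_closedBall_iff_norm] at hz
    have him := (abs_im_le_norm (z - s)).trans hz
    rw [sub_im, abs_le] at him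
    refine (differentiableAt_riemannZeta ?_).differentiableWithinAt
    rintro rfl
    rw [one_im] at him
    linarith [him.1]
  have h := Complex.norm_deriv_le_of_forall_mem_sphere_norm_le (by norm_num : (0 : ℝ) < 1 / 4) hd hsph
  refine h.trans ?_
  have hT0 : 0 < T := by linarith
  rw [Real.mul_rpow (by norm_num) hT0.le, Real.rpow_add hT0, Real.rpow_one]
  have hTB : 0 ≤ T ^ B := Real.rpow_nonneg hT0.le B
  calc C * (4 ^ B * T ^ B) / (1 / 4) = (C * 4 ^ B / (1 / 4)) * T ^ B := by ring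
    _ ≤ T * T ^ B := mul_le_mul_of_nonneg_right hTC hTB
    _ = T ^ B * T := mul_comm _ _

lemma dp_one (t : ℝ) : dp 1 (fun _ => 1) t = 1 := by
  simp [dp]

lemma N2_one : N2 1 (fun _ => 1) = 1 := by
  simp [N2]

lemma SS_nonneg (δ T t : ℝ) : 0 ≤ SS δ T t := by
  unfold SS
  by_cases hT : 0 ≤ Real.log T
  · exact Finset.sum_nonneg fun s _ => by positivity
  · exact Finset.sum_nonneg fun s _ => by positivity

/-- a zero contributes to its own `SS` -/
lemma SS_ge {δ T : ℝ} (hT : 16 ≤ T) {s : ℂ} (hs : s ∈ H370.Zf riemannZeta T (2 * T)) :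
    Real.exp (2 * δ * (Real.log T * |s.re - 1 / 2|)) ≤ SS δ T s.im := by
  have hs' := hs
  rw [H370.mem_Zf H370.good_zeta (by linarith)] at hs'
  have hm : (1 : ℝ) ≤ mz s := by
    have := H370.Loc.mult_pos' H370.good_zeta (show 0 < s.im by linarith [hs'.2.2.1]) hs'.2.2.2.2
    exact_mod_cast this
  have hZD : s ∈ ZD T := by
    unfold ZD
    rw [H370.mem_Zf H370.good_zeta (by linarith)]
    exact ⟨hs'.1, hs'.2.1, by linarith [hs'.2.2.1], by linarith [hs'.2.2.2.1], hs'.2.2.2.2⟩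
  have h1 : (mz s : ℝ) * (Real.exp (2 * δ * (Real.log T * |s.re - 1 / 2|)) / (1 + Real.log T * |s.im - s.im|) ^ 2) ≤ SS δ T s.im := by
    unfold SS
    refine Finset.single_le_sum (f := fun s' : ℂ => (mz s' : ℝ) * (Real.exp (2 * δ * (Real.log T * |s'.re - 1 / 2|)) /
      (1 + Real.log T * |s'.im - s.im|) ^ 2)) (fun s' _ => ?_) hZD
    positivity
  rw [sub_self, abs_zero, mul_zero, add_zero, one_pow, div_one] at h1
  have h2 : 0 ≤ Real.exp (2 * δ * (Real.log T * |s.re - 1 / 2|)) := (Real.exp_pos _).le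
  nlinarith

theorem t_FAR : S_FAR := by
  intro hDSC θ δ C hθ hθ' hδ hC hSSB
  obtain ⟨C', hC', hsum⟩ := hDSC θ δ 1 C hθ hθ' hδ hC hSSB
  obtain ⟨K, hK, hgr⟩ := deriv_growth
  refine ⟨K, δ / (16 * (K + 1)), hK, by positivity, ?_⟩
  have hlog : ∀ᶠ T : ℝ in atTop, C' * Real.log T ≤ T ^ (δ / 8) := by
    have h1 := isLittleO_log_rpow_atTop (by positivity : 0 < δ / 8)
    have h2 := h1.bound (c := 1 / (C' + 1)) (by positivity)
    filter_upwards [h2, eventually_ge_atTop 1] with T h3 h4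
    rw [Real.norm_of_nonneg (Real.log_nonneg h4), Real.norm_of_nonneg (Real.rpow_nonneg (by linarith) _)] at h3
    have h5 : 0 ≤ T ^ (δ / 8) := Real.rpow_nonneg (by linarith) _
    calc C' * Real.log T ≤ C' * (1 / (C' + 1) * T ^ (δ / 8)) := mul_le_mul_of_nonneg_left h3 hC'
      _ = (C' / (C' + 1)) * T ^ (δ / 8) := by ring
      _ ≤ 1 * T ^ (δ / 8) := by
        refine mul_le_mul_of_nonneg_right ?_ h5
        rw [div_le_one (by positivity)]
        linarith
      _ = T ^ (δ / 8) := one_mul _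
  have hone : ∀ᶠ T : ℝ in atTop, ((1 : ℕ) : ℝ) ≤ T ^ θ := by
    filter_upwards [eventually_ge_atTop 1] with T hT
    rw [Nat.cast_one]
    exact Real.one_le_rpow hT hθ.le
  filter_upwards [hsum, hgr, hlog, hone, eventually_ge_atTop 16] with T hsum hgr hlog hone hT
  have hT0 : 0 < T := by linarith
  have hT1 : 1 ≤ T := by linarith
  have hder : ∀ s ∈ H370.Zf riemannZeta T (2 * T), ‖deriv riemannZeta s‖ ≤ T ^ K := by
    intro s hs
    rw [H370.mem_Zf H370.good_zeta (by linarith)] at hs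
    exact hgr s hs.1 hs.2.1 hs.2.2.1 hs.2.2.2.1
  refine ⟨hder, fun lam hl0 hl1 => ?_⟩
  classical
  have hs1 := hsum 1 hone (fun _ => 1)
  simp only [dp_one, N2_one, norm_one, one_pow, mul_one, pow_one] at hs1
  -- number of far zeros
  set Z := H370.Zf riemannZeta T (2 * T) with hZ
  have hcard : ((Z.filter (fun s => 1 / 8 < |s.re - 1 / 2|)).card : ℝ) * T ^ (δ / 4) ≤ C' * Real.log T * T := by
    refine le_trans ?_ hs1
    rw [← nsmul_eq_mul, ← Finset.sum_const]
    refine le_trans ?_ (Finset.sum_le_sum_of_subset_of_nonneg (Finset.filter_subset (fun s => 1 / 8 < |s.re - 1 / 2|) Z) fun s _ _ =>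
      mul_nonneg (Nat.cast_nonneg _) (SS_nonneg _ _ _))
    refine Finset.sum_le_sum fun s hs => ?_
    rw [Finset.mem_filter] at hs
    have h1 := SS_ge (δ := δ) hT hs.1
    have hs' := hs.1
    rw [hZ, H370.mem_Zf H370.good_zeta (by linarith)] at hs'
    have hm : (1 : ℝ) ≤ mz s := by
      have := H370.Loc.mult_pos' H370.good_zeta (show 0 < s.im by linarith [hs'.2.2.1]) hs'.2.2.2.2
      exact_mod_cast this
    have h2 : T ^ (δ / 4) ≤ Real.exp (2 * δ * (Real.log T * |s.re - 1 / 2|)) := by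
      rw [Real.rpow_def_of_pos hT0]
      apply Real.exp_le_exp.2
      have hl : 0 ≤ Real.log T := Real.log_nonneg hT1
      have : Real.log T * (1 / 8) ≤ Real.log T * |s.re - 1 / 2| := mul_le_mul_of_nonneg_left hs.2.le hl
      nlinarith
    have h3 := SS_nonneg δ T s.im
    nlinarith
  have hterm : ∀ s ∈ Z.filter (fun s => 1 / 8 < |s.re - 1 / 2|), ‖deriv riemannZeta s‖ ^ (2 * lam) ≤ T ^ (δ / 8) := by
    intro s hs
    rw [Finset.mem_filter] at hs
    have h1 := hder s hs.1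
    have h2 : ‖deriv riemannZeta s‖ ^ (2 * lam) ≤ (T ^ K) ^ (2 * lam) :=
      Real.rpow_le_rpow (norm_nonneg _) h1 (by linarith)
    refine h2.trans ?_
    rw [← Real.rpow_mul hT0.le]
    refine Real.rpow_le_rpow_of_exponent_le hT1 ?_
    have h3 : lam * (16 * (K + 1)) ≤ δ := by
      rwa [le_div_iff₀ (by positivity)] at hl1
    nlinarith
  have hfin : ∑ s ∈ Z.filter (fun s => 1 / 8 < |s.re - 1 / 2|), ‖deriv riemannZeta s‖ ^ (2 * lam) ≤ T := by
    refine (Finset.sum_le_sum hterm).trans ?_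
    rw [Finset.sum_const, nsmul_eq_mul]
    have h8 : T ^ (δ / 4) = T ^ (δ / 8) * T ^ (δ / 8) := by
      rw [← Real.rpow_add hT0]
      congr 1
      ring
    rw [h8] at hcard
    have hp : 0 < T ^ (δ / 8) := Real.rpow_pos_of_pos hT0 _
    have h9 : ((Z.filter (fun s => 1 / 8 < |s.re - 1 / 2|)).card : ℝ) * T ^ (δ / 8) * T ^ (δ / 8) ≤ T * T ^ (δ / 8) := by
      have h10 : C' * Real.log T * T ≤ T ^ (δ / 8) * T := mul_le_mul_of_nonneg_right hlog hT0.le
      calc _ = ((Z.filter (fun s => 1 / 8 < |s.re - 1 / 2|)).card : ℝ) * (T ^ (δ / 8) * T ^ (δ / 8)) := by ring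
        _ ≤ C' * Real.log T * T := hcard
        _ ≤ T ^ (δ / 8) * T := h10
        _ = T * T ^ (δ / 8) := mul_comm _ _
    exact le_of_mul_le_mul_right h9 hp
  convert hfin using 2

end

end Pool.Agent.V7H67.GH
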